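import Pool.Agent.H52.HB.Sha2

/-!
# Project HB, module SHA
-/

set_option autoImplicit false
set_option linter.all false

open NumberField IsDedekindDomain WeierstrassCurve WeierstrassCurve.Affine
open scoped Classical

namespace Pool.Agent.H52.HB

open Pool.Agent.TH115.GD (act ak rs Pt act_act act_inj act_some incl fixed_point rs_act_incl)
open Pool.Agent.H92.HB
open Pool.Agent.H92P (cu VC cu_map fix_gen loc_H Om Gv divG tq tq_inj tq_surj tq_act)
open Pool.Agent.Y125.DQ (eh e_act act_congr act_id' aut_apply cont_aut exists_aut)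
open Pool.Agent.E8helper21 (castPt castPt_some)
open Pool.Agent.TH841.SH.D (Coch cob IsCoc IsCob)
open Pool.Agent.TH841.NF.D (Sha shaCoc IsShaCoc)

theorem shact {K : Type} [Field K] (W : WeierstrassCurve K) {A B C : Type} [Field A] [Field B]
    [Field C] [Algebra K A] [Algebra K B] [Algebra K C] (φ : A →ₐ[K] B) (ψ : B →ₐ[K] C)
    (P : Pool.Agent.TH841.SH.D.Pt W A) :
    Pool.Agent.TH841.SH.D.act W ψ (Pool.Agent.TH841.SH.D.act W φ P) =
      Pool.Agent.TH841.SH.D.act W (ψ.comp φ) P := by
  rcases P with _ | ⟨x, y, hxy⟩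
  · rfl
  · rfl

section main

variable {k F : Type} [Field k] [NumberField k] [Field F] [NumberField F] [Algebra k F]
  {q : ℕ}

/-- comparison of the points -/
noncomputable def TT (a b : 𝓞 k) : Pool.Agent.TH841.SH.D.Pt (cu F a b) (AlgebraicClosure F) ≃+
    Pt (cu k a b) (AlgebraicClosure F) :=
  AddEquiv.ofBijective (tq (cu_map a b) (AlgebraicClosure F)) ⟨tq_inj _ _, tq_surj _ _⟩

theorem TT_act (a b : 𝓞 k) (τ : AlgebraicClosure F ≃ₐ[F] AlgebraicClosure F)
    (P : Pool.Agent.TH841.SH.D.Pt (cu F a b) (AlgebraicClosure F)) :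
    TT a b (Pool.Agent.TH841.SH.D.act (cu F a b) τ.toAlgHom P) =
      act (cu k a b) (rs k τ) (TT a b P) :=
  tq_act (cu_map a b) τ.toAlgHom (rs k τ) (fun x => rfl) P

variable {a b : 𝓞 k} (j : F →ₐ[k] AlgebraicClosure k)
  (e : AlgebraicClosure k ≃ₐ[k] AlgebraicClosure F)
  (he : ∀ x : F, e (j x) = algebraMap F _ x)

theorem e_comm (τ : AlgebraicClosure F ≃ₐ[F] AlgebraicClosure F)
    (P : Pt (cu k a b) (AlgebraicClosure k)) :
    act (cu k a b) (eh e) (act (cu k a b) (ak (cU j e he τ).1) P) =
      act (cu k a b) (rs k τ) (act (cu k a b) (eh e) P) := by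
  rw [act_act, act_act]
  refine act_congr _ (fun x => ?_) P
  show e ((cU j e he τ).1 x) = τ (e x)
  rw [cU_apply, AlgEquiv.apply_symm_apply]

theorem e_comm' (σ : fixf j) (P : Pt (cu k a b) (AlgebraicClosure F)) :
    act (cu k a b) (eh e.symm) (act (cu k a b) (rs k (dU j e he σ)) P) =
      act (cu k a b) (ak σ.1) (act (cu k a b) (eh e.symm) P) := by
  rw [act_act, act_act]
  refine act_congr _ (fun x => ?_) P
  show e.symm (dU j e he σ x) = σ.1 (e.symm x)
  rw [dU_apply, AlgEquiv.symm_apply_apply]

theorem e_act' (P : Pt (cu k a b) (AlgebraicClosure k)) :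
    act (cu k a b) (eh e.symm) (act (cu k a b) (eh e) P) = P := by
  have := e_act (cu k a b) e.symm P
  exact this

/-- the transport of a cochain -/
noncomputable def lam (f : fixf j → Tor (cu k a b) q) : Coch (cu F a b) :=
  fun τ => (TT a b).symm (act _ (eh e) (f (cU j e he τ)).1)

theorem TT_lam (f : fixf j → Tor (cu k a b) q) (τ : AlgebraicClosure F ≃ₐ[F] AlgebraicClosure F) :
    TT a b (lam j e he f τ) = act _ (eh e) (f (cU j e he τ)).1 :=
  (TT a b).apply_symm_apply _

/-- **the part on the Tate-Shafarevich group** -/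
theorem sha_part (hab : 4 * a ^ 3 + 27 * b ^ 2 ≠ 0) (hq : 0 < q)
    (S : LocSys (AlgebraicClosure k ≃ₐ[k] AlgebraicClosure k) (Tor (cu k a b) q))
    (hS : IsSys (cu k a b) q S) (hfin : Finite (S.A (fixf j))) :
    Finite {s : Sha (cu F a b) // q • s = 0} ∧
      Nat.card {s : Sha (cu F a b) // q • s = 0} ∣ Nat.card (S.A (fixf j)) := by
  obtain ⟨e, he⟩ := exists_e j
  let Λ : S.Z (fixf j) →+ Coch (cu F a b) :=
    { toFun := fun f => lam j e he f.1
      map_zero' := by
        funext τ
        apply (TT a b).injective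
        rw [TT_lam]
        show act (cu k a b) (eh e) 0 = TT a b 0
        rw [map_zero, map_zero]
      map_add' := fun f g => by
        funext τ
        apply (TT a b).injective
        show _ = TT a b (lam j e he f.1 τ + lam j e he g.1 τ)
        rw [map_add, TT_lam, TT_lam, TT_lam, ← map_add]
        rfl }
  let M : AddSubgroup (Sha (cu F a b)) :=
    { carrier := {s | q • s = 0}
      zero_mem' := smul_zero q
      add_mem' := fun {s t} hs ht => by
        show q • (s + t) = 0
        rw [smul_add, show q • s = 0 from hs, show q • t = 0 from ht, add_zero]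
      neg_mem' := fun {s} hs => by
        show q • (-s) = 0
        rw [smul_neg, show q • s = 0 from hs, neg_zero] }
  let Y : AddSubgroup (S.Z (fixf j)) := (shaCoc (cu F a b)).comap Λ
  let Φ0 : Y →+ Sha (cu F a b) :=
    (QuotientAddGroup.mk' ((cob (cu F a b)).addSubgroupOf (shaCoc (cu F a b)))).comp
      (Λ.addSubgroupComap (shaCoc (cu F a b)))
  have hΦ0 : ∀ y : Y, Φ0 y ∈ M := by
    intro y
    show q • Φ0 y = 0
    rw [← map_nsmul]
    have h1 : q • y = 0 := by
      apply Subtype.ext
      apply Subtype.ext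
      funext σ
      show q • ((y : S.Z (fixf j)).1 σ) = 0
      apply Subtype.ext
      exact ((y : S.Z (fixf j)).1 σ).2
    rw [h1, map_zero]
  let Φ : Y →+ M := Φ0.codRestrict M hΦ0
  have h0 : ∀ y : Y, (y : S.Z (fixf j)) ∈ S.B (fixf j) → Φ y = 0 := by
    intro y hy
    obtain ⟨t, ht⟩ := hy
    apply Subtype.ext
    show Φ0 y = 0
    have h1 : (⟨Λ (y : S.Z (fixf j)), y.2⟩ : shaCoc (cu F a b)) ∈
        (cob (cu F a b)).addSubgroupOf (shaCoc (cu F a b)) := by
      rw [AddSubgroup.mem_addSubgroupOf]
      refine ⟨(TT a b).symm (act _ (eh e) t.1), fun τ => ?_⟩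
      apply (TT a b).injective
      show TT a b (lam j e he (y : S.Z (fixf j)).1 τ) = _
      rw [TT_lam, map_sub, TT_act, AddEquiv.apply_symm_apply, ht, ← e_comm j e he]
      show act (cu k a b) (eh e) (act (cu k a b) (ak (cU j e he τ).1) t.1 - t.1) = _
      rw [map_sub]
    exact (QuotientAddGroup.eq_zero_iff _).2 h1
  have hsurj : Function.Surjective Φ := by
    rintro ⟨s, hs⟩
    obtain ⟨f, rfl⟩ := QuotientAddGroup.mk_surjective
      (s := (cob (cu F a b)).addSubgroupOf (shaCoc (cu F a b))) s
    have h2 : (QuotientAddGroup.mk (q • f) : (shaCoc (cu F a b)) ⧸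
      (cob (cu F a b)).addSubgroupOf (shaCoc (cu F a b))) = 0 := hs
    rw [QuotientAddGroup.eq_zero_iff, AddSubgroup.mem_addSubgroupOf] at h2
    obtain ⟨Q, hQ⟩ := h2
    obtain ⟨R0, hR0⟩ := div_V (k := k) (Ω := AlgebraicClosure F) a b hab hq (TT a b Q)
    set R := (TT a b).symm R0 with hR
    have hqR : q • R = Q := by
      apply (TT a b).injective
      rw [map_nsmul, hR, AddEquiv.apply_symm_apply, hR0]
    have hQ' : ∀ σ : AlgebraicClosure F ≃ₐ[F] AlgebraicClosure F, q • f.1 σ =
        Pool.Agent.TH841.SH.D.act (cu F a b) σ.toAlgHom Q - Q := by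
      intro σ
      rw [← hQ σ]
      rfl
    -- the difference
    have hcob : (fun σ => Pool.Agent.TH841.SH.D.act (cu F a b) σ.toAlgHom R - R : Coch (cu F a b)) ∈
        cob (cu F a b) := ⟨R, fun σ => rfl⟩
    have hlcR : IsLocallyConstant (fun σ : AlgebraicClosure F ≃ₐ[F] AlgebraicClosure F =>
        act (cu k a b) (rs k σ) (TT a b R)) := by
      haveI : Algebra.IsAlgebraic k (AlgebraicClosure F) :=
        Algebra.IsAlgebraic.trans k F (AlgebraicClosure F)
      haveI : IsAlgClosure k (AlgebraicClosure F) := ⟨inferInstance, inferInstance⟩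
      haveI : IsGalois k (AlgebraicClosure F) := IsAlgClosure.isGalois k _
      exact (lc_act (cu k a b) (TT a b R)).comp_continuous (cont_rs (k := k) (F := F))
    let h : (AlgebraicClosure F ≃ₐ[F] AlgebraicClosure F) →
        Pt (cu k a b) (AlgebraicClosure F) := fun τ =>
      TT a b (f.1 τ) - (act (cu k a b) (rs k τ) (TT a b R) - TT a b R)
    have hh : ∀ τ, h τ = TT a b (f.1 τ - (Pool.Agent.TH841.SH.D.act (cu F a b) τ.toAlgHom R - R)) := by
      intro τ
      show TT a b (f.1 τ) - (act (cu k a b) (rs k τ) (TT a b R) - TT a b R) = _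
      rw [map_sub, map_sub, TT_act]
    have hlc : IsLocallyConstant h := by
      have h1 : IsLocallyConstant (fun τ => TT a b (f.1 τ)) := f.2.1.1.comp _
      have h2 := hlcR
      rw [IsLocallyConstant.iff_eventually_eq] at h1 h2 ⊢
      intro σ
      filter_upwards [h1 σ, h2 σ] with τ h1 h2
      show TT a b (f.1 τ) - (act (cu k a b) (rs k τ) (TT a b R) - TT a b R) =
        TT a b (f.1 σ) - (act (cu k a b) (rs k σ) (TT a b R) - TT a b R)
      rw [h1, h2]
    have hact : ∀ (σ τ : AlgebraicClosure F ≃ₐ[F] AlgebraicClosure F)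
        (P : Pt (cu k a b) (AlgebraicClosure F)),
        act (cu k a b) (rs k (σ * τ)) P = act (cu k a b) (rs k σ) (act (cu k a b) (rs k τ) P) := by
      intro σ τ P
      rw [act_act]
      rfl
    have hmul : ∀ σ τ, h (σ * τ) = h σ + act (cu k a b) (rs k σ) (h τ) := by
      intro σ τ
      show TT a b (f.1 (σ * τ)) - (act (cu k a b) (rs k (σ * τ)) (TT a b R) - TT a b R) =
        TT a b (f.1 σ) - (act (cu k a b) (rs k σ) (TT a b R) - TT a b R) +
        act (cu k a b) (rs k σ) (TT a b (f.1 τ) - (act (cu k a b) (rs k τ) (TT a b R) - TT a b R))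
      rw [f.2.1.2, map_add, TT_act, hact, map_sub, map_sub]
      abel
    have hqh : ∀ τ, q • h τ = 0 := by
      intro τ
      rw [hh, ← map_nsmul, smul_sub, hQ', smul_sub, ← map_nsmul, hqR, sub_self, map_zero]
    have hloc : ∀ w : HeightOneSpectrum (𝓞 F),
        Pool.Agent.TH115.GD.LocTriv (cu k a b) (w.adicCompletion F)
          (AlgebraicClosure (w.adicCompletion F)) h := by
      intro w
      let ι : AlgebraicClosure F →ₐ[F] AlgebraicClosure (w.adicCompletion F) := IsAlgClosed.lift
      obtain ⟨P0, hP0⟩ := f.2.2.1 w ι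
      refine ⟨ι, tq (cu_map a b) _ P0 - act (cu k a b) (ι.restrictScalars k) (TT a b R),
        fun τ σ hτσ => ?_⟩
      have h1 := hP0 τ σ hτσ
      have e1 := tq_act (cu_map a b) ι (ι.restrictScalars k) (fun x => rfl) (f.1 σ)
      have e2 := tq_act (cu_map a b) (AlgHom.restrictScalars F τ.toAlgHom) (rs k τ) (fun x => rfl) P0
      have e3 : act (cu k a b) (ι.restrictScalars k) (TT a b (f.1 σ)) =
          act (cu k a b) (rs k τ) (tq (cu_map a b) _ P0) - tq (cu_map a b) _ P0 := by
        refine e1.symm.trans ((congrArg (tq (cu_map a b)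
          (AlgebraicClosure (w.adicCompletion F))) h1).trans ?_)
        rw [map_sub]
        exact congrArg (fun z => z - tq (cu_map a b)
          (AlgebraicClosure (w.adicCompletion F)) P0) e2
      have e4 : act (cu k a b) (ι.restrictScalars k) (act (cu k a b) (rs k σ) (TT a b R)) =
          act (cu k a b) (rs k τ) (act (cu k a b) (ι.restrictScalars k) (TT a b R)) := by
        rw [act_act, act_act]
        exact act_congr _ (fun x => (hτσ x).symm) _
      show act (cu k a b) (ι.restrictScalars k)
        (TT a b (f.1 σ) - (act (cu k a b) (rs k σ) (TT a b R) - TT a b R)) = _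
      rw [map_sub, map_sub, e3, e4, map_sub]
      abel
    -- the cocycle of the subgroup
    let y : fixf j → Tor (cu k a b) q := fun σ =>
      ⟨act (cu k a b) (eh e.symm) (h (dU j e he σ)), by
        show q • act (cu k a b) (eh e.symm) (h (dU j e he σ)) = 0
        rw [← map_nsmul, hqh, map_zero]⟩
    have hy : y ∈ S.Z (fixf j) := by
      rw [hS]
      refine ⟨?_, fun σ τ => ?_, fun v ι => ?_⟩
      · have h1 : IsLocallyConstant (fun σ => h (dU j e he σ)) :=
          hlc.comp_continuous (cont_dU j e he)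
        rw [IsLocallyConstant.iff_eventually_eq] at h1 ⊢
        intro σ
        filter_upwards [h1 σ] with τ hτ
        apply Subtype.ext
        show act (cu k a b) (eh e.symm) (h (dU j e he τ)) =
          act (cu k a b) (eh e.symm) (h (dU j e he σ))
        rw [hτ]
      · apply Subtype.ext
        show act (cu k a b) (eh e.symm) (h (dU j e he (σ * τ))) =
          act (cu k a b) (eh e.symm) (h (dU j e he σ)) +
          act (cu k a b) (ak σ.1) (act (cu k a b) (eh e.symm) (h (dU j e he τ)))
        rw [dU_mul, hmul, map_add, e_comm']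
      · obtain ⟨P, hP⟩ := loc_F (cu k a b) h hmul hloc v (ι.comp (eh e.symm))
        refine ⟨P, fun τ σ hτσ => ?_⟩
        have h1 := hP τ (dU j e he σ) (fun x => by
          show τ (ι (e.symm x)) = ι (e.symm (dU j e he σ x))
          rw [dU_apply, AlgEquiv.symm_apply_apply]
          exact hτσ _)
        rw [← act_act] at h1
        exact h1
    have hlam : lam j e he y = fun τ : AlgebraicClosure F ≃ₐ[F] AlgebraicClosure F =>
        f.1 τ - (Pool.Agent.TH841.SH.D.act (cu F a b) τ.toAlgHom R - R) := by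
      funext τ
      apply (TT a b).injective
      rw [TT_lam, ← hh]
      show act (cu k a b) (eh e) (act (cu k a b) (eh e.symm) (h (dU j e he (cU j e he τ)))) = _
      rw [e_act, dU_cU]
    have hmem : (fun σ => Pool.Agent.TH841.SH.D.act (cu F a b) σ.toAlgHom R - R :
        Coch (cu F a b)) ∈ shaCoc (cu F a b) := by
      refine ⟨⟨?_, fun σ τ => ?_⟩, fun v ι => ?_, fun v ι => ?_⟩
      · have h1 := hlcR
        rw [IsLocallyConstant.iff_eventually_eq] at h1 ⊢
        intro σ
        filter_upwards [h1 σ] with τ hτ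
        apply (TT a b).injective
        rw [map_sub, map_sub, TT_act, TT_act, hτ]
      · apply (TT a b).injective
        rw [map_add, TT_act, map_sub, TT_act, map_sub, TT_act, map_sub, TT_act, hact, map_sub]
        abel
      · refine ⟨Pool.Agent.TH841.SH.D.act (cu F a b) ι R, fun τ σ hτσ => ?_⟩
        have e4 : Pool.Agent.TH841.SH.D.act (cu F a b) ι
            (Pool.Agent.TH841.SH.D.act (cu F a b) σ.toAlgHom R) =
            Pool.Agent.TH841.SH.D.act (cu F a b) (τ.toAlgHom.restrictScalars F)
              (Pool.Agent.TH841.SH.D.act (cu F a b) ι R) := by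
          have hc : ι.comp σ.toAlgHom = (τ.toAlgHom.restrictScalars F).comp ι :=
            AlgHom.ext fun x => (hτσ x).symm
          rw [shact, shact, hc]
        rw [map_sub, e4]
      · refine ⟨Pool.Agent.TH841.SH.D.act (cu F a b) ι R, fun τ σ hτσ => ?_⟩
        have e4 : Pool.Agent.TH841.SH.D.act (cu F a b) ι
            (Pool.Agent.TH841.SH.D.act (cu F a b) σ.toAlgHom R) =
            Pool.Agent.TH841.SH.D.act (cu F a b) (τ.toAlgHom.restrictScalars F)
              (Pool.Agent.TH841.SH.D.act (cu F a b) ι R) := by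
          have hc : ι.comp σ.toAlgHom = (τ.toAlgHom.restrictScalars F).comp ι :=
            AlgHom.ext fun x => (hτσ x).symm
          rw [shact, shact, hc]
        rw [map_sub, e4]
    have hY : (⟨y, hy⟩ : S.Z (fixf j)) ∈ Y := by
      show lam j e he y ∈ shaCoc (cu F a b)
      rw [hlam]
      exact (shaCoc (cu F a b)).sub_mem f.2 hmem
    refine ⟨⟨⟨y, hy⟩, hY⟩, Subtype.ext ?_⟩
    show (QuotientAddGroup.mk (⟨lam j e he y, hY⟩ : shaCoc (cu F a b)) :
      (shaCoc (cu F a b)) ⧸ (cob (cu F a b)).addSubgroupOf (shaCoc (cu F a b))) =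
      QuotientAddGroup.mk f
    rw [QuotientAddGroup.eq]
    rw [AddSubgroup.mem_addSubgroupOf]
    show -(lam j e he y) + f.1 ∈ cob (cu F a b)
    have h9 : -(lam j e he y) + f.1 =
        (fun σ => Pool.Agent.TH841.SH.D.act (cu F a b) σ.toAlgHom R - R : Coch (cu F a b)) := by
      rw [hlam]
      funext τ
      show -(f.1 τ - (Pool.Agent.TH841.SH.D.act (cu F a b) τ.toAlgHom R - R)) + f.1 τ = _
      abel
    rw [h9]
    exact hcob
  have hfinal := card_lem (M := M) (S.B (fixf j)) Y Φ hsurj h0 hfin
  exact hfinal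

/-- **the part on the points** -/
theorem quo_part (hab : 4 * a ^ 3 + 27 * b ^ 2 ≠ 0) (hq : 0 < q)
    (S : LocSys (AlgebraicClosure k ≃ₐ[k] AlgebraicClosure k) (Tor (cu k a b) q))
    (hS : IsSys (cu k a b) q S) (hfin : Finite (S.A (fixf j))) :
    Finite (Quo q (cu F a b).toAffine.Point) ∧
    Nat.card (Quo q (cu F a b).toAffine.Point) ≤ Nat.card (S.A (fixf j)) := by
  obtain ⟨e, he⟩ := exists_e j
  haveI : Algebra.IsAlgebraic k (AlgebraicClosure k) := AlgebraicClosure.isAlgebraic k
  haveI : IsGalois k (AlgebraicClosure k) := IsAlgClosure.isGalois k _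
  let C : (cu F a b).toAffine.Point ≃+ Pt (cu k a b) F :=
    castPt (show cu F a b = (cu k a b).baseChange F from (cu_map a b).symm)
  have hdiv : ∀ P : (cu F a b).toAffine.Point, ∃ R, q • R = act (cu k a b) j (C P) :=
    fun P => div_V a b hab hq _
  choose R hR using hdiv
  have hjfix : ∀ (σ : fixf j) (P : Pt (cu k a b) F),
      act (cu k a b) (ak σ.1) (act (cu k a b) j P) = act (cu k a b) j P := by
    intro σ P
    rw [act_act]
    exact act_congr _ (fun x => σ.2 x) P
  let z : (cu F a b).toAffine.Point → fixf j → Tor (cu k a b) q := fun P σ =>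
    ⟨act (cu k a b) (ak σ.1) (R P) - R P, by
      show q • (act (cu k a b) (ak σ.1) (R P) - R P) = 0
      rw [smul_sub, ← map_nsmul, hR, hjfix, sub_self]⟩
  have hz : ∀ P, z P ∈ S.Z (fixf j) := by
    intro P
    rw [hS]
    refine ⟨?_, fun σ τ => ?_, fun v ι => ?_⟩
    · have h1 : IsLocallyConstant (fun σ : fixf j => act (cu k a b) (ak σ.1) (R P)) :=
        (lc_act (cu k a b) (R P)).comp_continuous continuous_subtype_val
      rw [IsLocallyConstant.iff_eventually_eq] at h1 ⊢
      intro σ
      filter_upwards [h1 σ] with τ hτ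
      apply Subtype.ext
      show act (cu k a b) (ak τ.1) (R P) - R P = act (cu k a b) (ak σ.1) (R P) - R P
      rw [hτ]
    · apply Subtype.ext
      show act (cu k a b) (ak (σ.1 * τ.1)) (R P) - R P =
        (act (cu k a b) (ak σ.1) (R P) - R P) +
        act (cu k a b) (ak σ.1) (act (cu k a b) (ak τ.1) (R P) - R P)
      have h1 : act (cu k a b) (ak (σ.1 * τ.1)) (R P) =
          act (cu k a b) (ak σ.1) (act (cu k a b) (ak τ.1) (R P)) := by
        rw [act_act]
        rfl
      rw [h1, map_sub]
      abel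
    · refine ⟨act (cu k a b) ι (R P), fun τ σ hτσ => ?_⟩
      show act (cu k a b) ι (act (cu k a b) (ak σ.1) (R P) - R P) = _
      rw [map_sub, act_act, act_act]
      congr 1
      exact act_congr _ (fun x => (hτσ x).symm) _
  -- the map
  let G : Quo q (cu F a b).toAffine.Point → S.A (fixf j) := fun c =>
    QuotientAddGroup.mk ⟨z (Quotient.out c), hz _⟩
  have hG : Function.Injective G := by
    intro c₁ c₂ hc
    have h1 : -(⟨z (Quotient.out c₁), hz _⟩ : S.Z (fixf j)) + ⟨z (Quotient.out c₂), hz _⟩ ∈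
        S.B (fixf j) := QuotientAddGroup.eq.1 hc
    obtain ⟨t, ht⟩ := h1
    have ht' : ∀ σ : fixf j, -(act (cu k a b) (ak σ.1) (R (Quotient.out c₁)) -
        R (Quotient.out c₁)) + (act (cu k a b) (ak σ.1) (R (Quotient.out c₂)) -
        R (Quotient.out c₂)) = act (cu k a b) (ak σ.1) t.1 - t.1 := fun σ =>
      congrArg Subtype.val (ht σ)
    set X := R (Quotient.out c₂) - R (Quotient.out c₁) - t.1 with hX
    have hfix : ∀ σ : fixf j, act (cu k a b) (ak σ.1) X = X := by
      intro σ
      rw [hX, map_sub, map_sub]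
      have h2 := ht' σ
      have h3 : act (cu k a b) (ak σ.1) t.1 = -(act (cu k a b) (ak σ.1) (R (Quotient.out c₁)) -
        R (Quotient.out c₁)) + (act (cu k a b) (ak σ.1) (R (Quotient.out c₂)) -
        R (Quotient.out c₂)) + t.1 := by rw [h2]; abel
      rw [h3]
      abel
    obtain ⟨Q0, hQ0⟩ := fixed_point (K := k) (F := F) (cu k a b) (act (cu k a b) (eh e) X)
      (fun τ => by rw [← e_comm j e he, hfix])
    have h4 : act (cu k a b) j Q0 = X := by
      have h5 : act (cu k a b) (incl k F (AlgebraicClosure F)) Q0 =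
          act (cu k a b) (eh e) (act (cu k a b) j Q0) := by
        rw [act_act]
        exact act_congr _ (fun x => (he x).symm) _
      rw [h5] at hQ0
      exact act_inj _ _ hQ0
    have h6 : q • Q0 = C (Quotient.out c₂) - C (Quotient.out c₁) := by
      apply act_inj (cu k a b) j
      rw [map_nsmul, h4, map_sub, ← hR, ← hR, hX, smul_sub, smul_sub, show q • t.1 = 0 from t.2,
        sub_zero]
    have h7 : (QuotientAddGroup.mk (Quotient.out c₁) : Quo q (cu F a b).toAffine.Point) =
        QuotientAddGroup.mk (Quotient.out c₂) := by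
      rw [QuotientAddGroup.eq]
      refine ⟨C.symm Q0, ?_⟩
      show q • C.symm Q0 = _
      apply C.injective
      rw [map_nsmul, AddEquiv.apply_symm_apply, h6, map_add, map_neg]
      abel
    rw [← QuotientAddGroup.out_eq' c₁, ← QuotientAddGroup.out_eq' c₂]
    exact h7
  exact ⟨Finite.of_injective G hG, Nat.card_le_card_of_injective G hG⟩

end main

/-- **SHA** -/
theorem t_SHA : S_SHA := by
  intro k F _ _ _ _ _ a b hab q hq j S hS hfin
  obtain ⟨h1, h2⟩ := sha_part j hab hq S hS hfin
  obtain ⟨h3, h4⟩ := quo_part j hab hq S hS hfin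
  exact ⟨⟨h1, h2⟩, h3, h4⟩

end Pool.Agent.H52.HB
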