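import Pool.Agent.H92.HB.Stm
import Pool.Graph.R_seed8.W309.TD.Kum

/-!
# Project HB, module SHA: preparations
-/

set_option autoImplicit false
set_option linter.all false

open NumberField IsDedekindDomain WeierstrassCurve WeierstrassCurve.Affine
open scoped Classical

namespace Pool.Agent.H52.HB

open Pool.Agent.TH115.GD (act ak rs Pt act_act act_inj act_some)
open Pool.Agent.H92.HB
open Pool.Agent.H92P (cu VC cu_map fix_gen loc_H Om divG)
open Pool.Agent.Y125.DQ (eh e_act act_congr act_id' aut_apply cont_aut exists_aut)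
open Pool.Agent.E8helper21 (castPt castPt_some)
open Pool.Agent.H901R3.MS (CV Disc)

/-! ### Algebra -/

theorem card_lem {Z M : Type} [AddCommGroup Z] [AddCommGroup M] (B Y : AddSubgroup Z) (Φ : Y →+ M)
    (hΦ : Function.Surjective Φ) (h0 : ∀ y : Y, (y : Z) ∈ B → Φ y = 0) (hfin : Finite (Z ⧸ B)) :
    Finite M ∧ Nat.card M ∣ Nat.card (Z ⧸ B) := by
  let ψ : Y →+ Z ⧸ B := (QuotientAddGroup.mk' B).comp Y.subtype
  have hk : ∀ y ∈ ψ.ker, Φ y = 0 := by
    intro y hy
    apply h0
    have h1 : QuotientAddGroup.mk' B (y : Z) = 0 := hy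
    exact (QuotientAddGroup.eq_zero_iff (y : Z)).1 h1
  let θ : Y ⧸ ψ.ker →+ M := QuotientAddGroup.lift ψ.ker Φ hk
  have hθ : Function.Surjective θ := by
    intro m
    obtain ⟨y, rfl⟩ := hΦ m
    exact ⟨QuotientAddGroup.mk y, rfl⟩
  let e : Y ⧸ ψ.ker ≃+ ψ.range := QuotientAddGroup.quotientKerEquivRange ψ
  haveI : Finite (Y ⧸ ψ.ker) := Finite.of_equiv _ e.symm.toEquiv
  refine ⟨Finite.of_surjective θ hθ, (AddSubgroup.card_dvd_of_surjective θ hθ).trans ?_⟩
  rw [Nat.card_congr e.toEquiv]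
  exact AddSubgroup.card_addSubgroup_dvd_card _

/-! ### Galois groups -/

section gal

variable {k F : Type} [Field k] [NumberField k] [Field F] [NumberField F] [Algebra k F]

theorem exists_e (j : F →ₐ[k] AlgebraicClosure k) :
    ∃ e : AlgebraicClosure k ≃ₐ[k] AlgebraicClosure F, ∀ x : F, e (j x) = algebraMap F _ x := by
  letI : Algebra F (AlgebraicClosure k) := j.toRingHom.toAlgebra
  haveI : IsScalarTower k F (AlgebraicClosure k) :=
    IsScalarTower.of_algebraMap_eq fun x => (j.commutes x).symm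
  haveI : Algebra.IsAlgebraic k (AlgebraicClosure k) := AlgebraicClosure.isAlgebraic k
  haveI : Algebra.IsAlgebraic F (AlgebraicClosure k) := Algebra.IsAlgebraic.tower_top (K := k) F
  haveI : IsAlgClosure F (AlgebraicClosure k) := ⟨inferInstance, inferInstance⟩
  let e : AlgebraicClosure k ≃ₐ[F] AlgebraicClosure F := IsAlgClosure.equiv F _ _
  exact ⟨e.restrictScalars k, fun x => e.commutes x⟩

theorem cont_rs : Continuous (fun τ : AlgebraicClosure F ≃ₐ[F] AlgebraicClosure F =>
    (τ.restrictScalars k : AlgebraicClosure F ≃ₐ[k] AlgebraicClosure F)) := by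
  apply continuous_of_continuousAt_one (AlgEquiv.restrictScalarsHom k :
    (AlgebraicClosure F ≃ₐ[F] AlgebraicClosure F) →* (AlgebraicClosure F ≃ₐ[k] AlgebraicClosure F))
  unfold ContinuousAt
  rw [map_one]
  intro s hs
  obtain ⟨E, hE, hEs⟩ := (krullTopology_mem_nhds_one_iff k (AlgebraicClosure F) s).1 hs
  haveI : Algebra.IsSeparable k E := inferInstance
  obtain ⟨α, hα⟩ := Field.exists_primitive_element k E
  rw [Filter.mem_map]
  have ho : IsOpen (MulAction.stabilizer (AlgebraicClosure F ≃ₐ[F] AlgebraicClosure F)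
      (α : AlgebraicClosure F) : Set (AlgebraicClosure F ≃ₐ[F] AlgebraicClosure F)) :=
    stabilizer_isOpen_of_isIntegral _
  refine Filter.mem_of_superset (ho.mem_nhds (MulAction.stabilizer _ _).one_mem) ?_
  intro τ hτ
  apply hEs
  show τ.restrictScalars k ∈ E.fixingSubgroup
  rw [IntermediateField.mem_fixingSubgroup_iff]
  intro x hx
  have hτ' : τ (α : AlgebraicClosure F) = α := hτ
  exact fix_gen E.val hα (τ.restrictScalars k).toAlgHom hτ' ⟨x, hx⟩

variable (j : F →ₐ[k] AlgebraicClosure k) (e : AlgebraicClosure k ≃ₐ[k] AlgebraicClosure F)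
  (he : ∀ x : F, e (j x) = algebraMap F _ x)

/-- from the Galois group of `F` to the subgroup -/
noncomputable def cU (τ : AlgebraicClosure F ≃ₐ[F] AlgebraicClosure F) : fixf j :=
  ⟨e.autCongr.symm (τ.restrictScalars k), fun x => by
    show e.symm (τ (e (j x))) = j x
    rw [he, τ.commutes, ← he, AlgEquiv.symm_apply_apply]⟩

theorem cU_apply (τ : AlgebraicClosure F ≃ₐ[F] AlgebraicClosure F) (x : AlgebraicClosure k) :
    (cU j e he τ).1 x = e.symm (τ (e x)) := rfl

theorem cU_mul (σ τ : AlgebraicClosure F ≃ₐ[F] AlgebraicClosure F) :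
    cU j e he (σ * τ) = cU j e he σ * cU j e he τ := by
  apply Subtype.ext
  ext x
  show e.symm (σ (τ (e x))) = e.symm (σ (e (e.symm (τ (e x)))))
  rw [AlgEquiv.apply_symm_apply]

theorem cont_cU : Continuous (cU j e he) := by
  apply Continuous.subtype_mk
  exact (cont_aut e.symm).comp cont_rs

/-- from the subgroup to the Galois group of `F` -/
noncomputable def dU (σ : fixf j) : AlgebraicClosure F ≃ₐ[F] AlgebraicClosure F :=
  AlgEquiv.ofRingEquiv (f := (e.autCongr σ.1).toRingEquiv) fun x => by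
    show e (σ.1 (e.symm (algebraMap F _ x))) = _
    rw [← he, AlgEquiv.symm_apply_apply, σ.2 x]

theorem dU_apply (σ : fixf j) (x : AlgebraicClosure F) : dU j e he σ x = e (σ.1 (e.symm x)) := rfl

theorem cU_dU (σ : fixf j) : cU j e he (dU j e he σ) = σ := by
  apply Subtype.ext
  ext x
  rw [cU_apply, dU_apply, AlgEquiv.symm_apply_apply, AlgEquiv.symm_apply_apply]

theorem dU_cU (τ : AlgebraicClosure F ≃ₐ[F] AlgebraicClosure F) : dU j e he (cU j e he τ) = τ := by
  ext x
  rw [dU_apply, cU_apply, AlgEquiv.apply_symm_apply, AlgEquiv.apply_symm_apply]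

theorem dU_mul (σ τ : fixf j) : dU j e he (σ * τ) = dU j e he σ * dU j e he τ := by
  ext x
  show e (σ.1 (τ.1 (e.symm x))) = e (σ.1 (e.symm (e (τ.1 (e.symm x)))))
  rw [AlgEquiv.symm_apply_apply]

theorem cont_dU : Continuous (dU j e he) := by
  let φ : fixf j →* (AlgebraicClosure F ≃ₐ[F] AlgebraicClosure F) :=
    { toFun := dU j e he
      map_one' := by
        ext x
        show e (e.symm x) = x
        rw [AlgEquiv.apply_symm_apply]
      map_mul' := dU_mul j e he }
  apply continuous_of_continuousAt_one φ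
  unfold ContinuousAt
  rw [map_one]
  intro s hs
  obtain ⟨E, hE, hEs⟩ := (krullTopology_mem_nhds_one_iff F (AlgebraicClosure F) s).1 hs
  haveI : Algebra.IsSeparable F E := inferInstance
  obtain ⟨α, hα⟩ := Field.exists_primitive_element F E
  rw [Filter.mem_map]
  haveI : Algebra.IsAlgebraic k (AlgebraicClosure k) := AlgebraicClosure.isAlgebraic k
  have ho : IsOpen (MulAction.stabilizer (AlgebraicClosure k ≃ₐ[k] AlgebraicClosure k)
      (e.symm α) : Set (AlgebraicClosure k ≃ₐ[k] AlgebraicClosure k)) :=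
    stabilizer_isOpen_of_isIntegral _
  have ho' : IsOpen ((fun σ : fixf j => σ.1) ⁻¹' (MulAction.stabilizer
      (AlgebraicClosure k ≃ₐ[k] AlgebraicClosure k) (e.symm α) :
      Set (AlgebraicClosure k ≃ₐ[k] AlgebraicClosure k))) := ho.preimage continuous_subtype_val
  refine Filter.mem_of_superset (ho'.mem_nhds (by
    show (1 : fixf j).1 ∈ MulAction.stabilizer _ _
    exact (MulAction.stabilizer _ _).one_mem)) ?_
  intro σ hσ
  apply hEs
  show dU j e he σ ∈ E.fixingSubgroup
  rw [IntermediateField.mem_fixingSubgroup_iff]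
  intro x hx
  have hσ' : σ.1 (e.symm (α : AlgebraicClosure F)) = e.symm α := hσ
  refine fix_gen E.val hα (dU j e he σ).toAlgHom ?_ ⟨x, hx⟩
  show e (σ.1 (e.symm (α : AlgebraicClosure F))) = α
  rw [hσ', AlgEquiv.apply_symm_apply]

end gal

/-! ### Points -/

theorem lc_act {k Ω : Type} [Field k] [Field Ω] [Algebra k Ω] [IsGalois k Ω]
    (V : WeierstrassCurve k) (R : Pt V Ω) :
    IsLocallyConstant fun σ : Ω ≃ₐ[k] Ω => act V (ak σ) R := by
  rcases R with _ | ⟨x, y, hxy⟩
  · have h : (fun σ : Ω ≃ₐ[k] Ω => act V (ak σ) (0 : Pt V Ω)) = fun _ => 0 := by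
      funext σ
      exact map_zero _
    show IsLocallyConstant fun σ : Ω ≃ₐ[k] Ω => act V (ak σ) (0 : Pt V Ω)
    rw [h]
    exact IsLocallyConstant.const _
  · rw [IsLocallyConstant.iff_eventually_eq]
    intro σ
    have h1 := (IsLocallyConstant.iff_eventually_eq _).1
      (Pool.Agent.W309.TD.locConst_apply (K := k) x) σ
    have h2 := (IsLocallyConstant.iff_eventually_eq _).1
      (Pool.Agent.W309.TD.locConst_apply (K := k) y) σ
    filter_upwards [h1, h2] with τ h1 h2
    obtain ⟨h3, h4⟩ := act_some V (ak τ) hxy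
    obtain ⟨h5, h6⟩ := act_some V (ak σ) hxy
    rw [h4, h6, Point.some.injEq]
    exact ⟨h1, h2⟩

theorem div_V {k Ω : Type} [Field k] [NumberField k] [Field Ω] [IsAlgClosed Ω] [Algebra k Ω]
    (a b : 𝓞 k) (hab : 4 * a ^ 3 + 27 * b ^ 2 ≠ 0) {q : ℕ} (hq : 0 < q)
    (P : Pt (cu k a b) Ω) : ∃ R, q • R = P := by
  have h1 : (cu k a b).baseChange Ω =
      CV (algebraMap k Ω (a : k)) (algebraMap k Ω (b : k)) := by
    ext
    · exact map_zero _
    · exact map_zero _
    · exact map_zero _
    · rfl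
    · rfl
  haveI : CharZero Ω := charZero_of_injective_algebraMap (algebraMap k Ω).injective
  have h2 : Disc (algebraMap k Ω (a : k)) (algebraMap k Ω (b : k)) := by
    intro h
    apply hab
    have e1 : algebraMap k Ω ((2 * (4 * a ^ 3 + 27 * b ^ 2) : 𝓞 k) : k) = 0 := by
      rw [← h]
      push_cast
      simp only [map_mul, map_add, map_pow, map_ofNat]
    have e2 : ((2 * (4 * a ^ 3 + 27 * b ^ 2) : 𝓞 k) : k) = 0 := by
      rwa [map_eq_zero] at e1
    have e3 : (2 * (4 * a ^ 3 + 27 * b ^ 2) : 𝓞 k) = 0 := by exact_mod_cast e2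
    rcases mul_eq_zero.1 e3 with h | h
    · exact absurd h two_ne_zero
    · exact h
  obtain ⟨R, hR⟩ := divG two_ne_zero h2 hq (castPt h1 P)
  refine ⟨(castPt h1).symm R, ?_⟩
  apply (castPt h1).injective
  rw [map_nsmul, AddEquiv.apply_symm_apply, hR]

end Pool.Agent.H52.HB
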