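import Pool.Agent.H52.HB.Sha1

/-!
# Project HB, module SHA: local triviality
-/

set_option autoImplicit false
set_option linter.all false

open NumberField IsDedekindDomain WeierstrassCurve WeierstrassCurve.Affine
open scoped Classical

namespace Pool.Agent.H52.HB

open Pool.Agent.TH115.GD (act ak rs Pt act_act act_inj act_some)
open Pool.Agent.H92.HB
open Pool.Agent.H92P (cu VC cu_map fix_gen loc_H Om Gv divG)
open Pool.Agent.Y125.DQ (eh e_act act_congr act_id' aut_apply cont_aut exists_aut)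

section loc

variable {k F : Type} [Field k] [NumberField k] [Field F] [NumberField F] [Algebra k F]

/-- local triviality for all the embeddings -/
theorem loc_F (V : WeierstrassCurve k)
    (g : (AlgebraicClosure F ≃ₐ[F] AlgebraicClosure F) → Pt V (AlgebraicClosure F))
    (hmul : ∀ σ τ, g (σ * τ) = g σ + act V (rs k σ) (g τ))
    (hloc : ∀ w : HeightOneSpectrum (𝓞 F),
      Pool.Agent.TH115.GD.LocTriv V (w.adicCompletion F) (AlgebraicClosure (w.adicCompletion F)) g)
    (v : HeightOneSpectrum (𝓞 k)) (ι' : AlgebraicClosure F →ₐ[k] Om v) :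
    ∃ P : Pt V (Om v), ∀ (τ : Gv v) (σ : AlgebraicClosure F ≃ₐ[F] AlgebraicClosure F),
      (∀ x, τ (ι' x) = ι' (σ x)) → act V ι' (g σ) = act V (rs k τ) P - P := by
  -- extension of the cochain
  let g' : (AlgebraicClosure F ≃ₐ[k] AlgebraicClosure F) → Pt V (AlgebraicClosure F) := fun σ =>
    if h : ∃ σ0 : AlgebraicClosure F ≃ₐ[F] AlgebraicClosure F, σ0.restrictScalars k = σ then
      g h.choose else 0
  have hg' : ∀ σ : AlgebraicClosure F ≃ₐ[F] AlgebraicClosure F, g' (σ.restrictScalars k) = g σ := by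
    intro σ
    have h : ∃ σ0 : AlgebraicClosure F ≃ₐ[F] AlgebraicClosure F,
        σ0.restrictScalars k = σ.restrictScalars k := ⟨σ, rfl⟩
    have h2 : h.choose = σ := by
      have h3 := h.choose_spec
      ext x
      exact DFunLike.congr_fun h3 x
    show (if h : ∃ σ0 : AlgebraicClosure F ≃ₐ[F] AlgebraicClosure F,
      σ0.restrictScalars k = σ.restrictScalars k then g h.choose else 0) = g σ
    rw [dif_pos h, h2]
  have hg'' : (fun σ : AlgebraicClosure F ≃ₐ[F] AlgebraicClosure F => g' (σ.restrictScalars k)) = g :=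
    funext hg'
  let l : F →ₐ[k] Om v := ι'.comp (IsScalarTower.toAlgHom k F (AlgebraicClosure F))
  have hl : ∀ x : F, l x = ι' (algebraMap F _ x) := fun x => rfl
  obtain ⟨w, κ, ι, P₂, -, -, hιl, hH⟩ := loc_H V l g' (by
    intro w
    rw [hg'']
    exact hloc w)
  letI : Algebra F (Om v) := l.toRingHom.toAlgebra
  let ιF : AlgebraicClosure F →ₐ[F] Om v := { ι.toRingHom with commutes' := fun x => hιl x }
  let ιF' : AlgebraicClosure F →ₐ[F] Om v := { ι'.toRingHom with commutes' := fun x => rfl }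
  haveI : Algebra.IsAlgebraic F (AlgebraicClosure F) := AlgebraicClosure.isAlgebraic F
  haveI : Normal F (AlgebraicClosure F) := IsAlgClosure.normal F _
  obtain ⟨ρ, hρ'⟩ := exists_aut ιF' ιF
  have hρ : ∀ x, ι' x = ι (ρ x) := hρ'
  have hιρ : ∀ P : Pt V (AlgebraicClosure F), act V ι' P = act V ι (act V (rs k ρ) P) := by
    intro P
    rw [act_act]
    exact act_congr V hρ P
  refine ⟨P₂ + act V ι (g ρ), fun τ σ h => ?_⟩
  have h1 : ∀ x, τ (ι x) = ι ((ρ * σ * ρ⁻¹) x) := by
    intro x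
    have h3 := h (ρ⁻¹ x)
    rw [hρ, hρ] at h3
    have h4 : ρ (ρ⁻¹ x) = x := by
      rw [← AlgEquiv.mul_apply, mul_inv_cancel]
      rfl
    rw [h4] at h3
    exact h3
  have h3 := hH τ ((ρ * σ * ρ⁻¹).restrictScalars k) h1 (fun x => by
    rw [← hιl, h1]
    congr 1
    exact (ρ * σ * ρ⁻¹).commutes x)
  rw [hg'] at h3
  have h5 : g (ρ * σ) = g (ρ * σ * ρ⁻¹) + act V (rs k (ρ * σ * ρ⁻¹)) (g ρ) := by
    rw [← hmul, inv_mul_cancel_right]
  rw [hmul] at h5
  have h6 := congrArg (act V ι) h5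
  rw [map_add, map_add, h3, ← hιρ, act_act] at h6
  have h7 : act V (ι.comp (rs k (ρ * σ * ρ⁻¹))) (g ρ) = act V (rs k τ) (act V ι (g ρ)) := by
    rw [act_act]
    exact act_congr V (fun x => (h1 x).symm) _
  rw [h7] at h6
  rw [map_add]
  have : act V ι' (g σ) = (act V ι (g ρ) + act V ι' (g σ)) - act V ι (g ρ) := by abel
  rw [this, h6]
  abel

end loc

end Pool.Agent.H52.HB
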